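import Mathlib
import Pool.Agent.Helper68.DM.Final

namespace Pool.Agent.Results.MP_8cc159_an.Disproof

/-- The norm-one supporting functionals of `X` at `x`. -/
def J1 {X : Type*} [NormedAddCommGroup X] [NormedSpace ℝ X] (x : X) : Set (X →L[ℝ] ℝ) :=
  {p | ‖p‖ = 1 ∧ p x = 1}

/-- The set of all `‖p₁ - p₂‖` with `pᵢ ∈ J1 xᵢ`, `‖xᵢ‖ = 1`, `‖x₁ - x₂‖ = ε`. -/
def dualDistances (X : Type*) [NormedAddCommGroup X] [NormedSpace ℝ X] (ε : ℝ) : Set ℝ :=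
  {r | ∃ x₁ x₂ : X, ‖x₁‖ = 1 ∧ ‖x₂‖ = 1 ∧ ‖x₁ - x₂‖ = ε ∧
    ∃ p₁ ∈ J1 x₁, ∃ p₂ ∈ J1 x₂, r = ‖p₁ - p₂‖}

/-- The lower modulus `d⁻_X(ε)`. -/
noncomputable def dMinus (X : Type*) [NormedAddCommGroup X] [NormedSpace ℝ X] (ε : ℝ) : ℝ :=
  sInf (dualDistances X ε)

/-- There is a two-dimensional real Banach space `X` and an admissible `ε ∈ (0, 2)` with
`d⁻_X(ε) > ε`. -/
theorem result : ∃ (X : Type) (_ : NormedAddCommGroup X) (_ : NormedSpace ℝ X),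
    CompleteSpace X ∧ Module.finrank ℝ X = 2 ∧
      ∃ ε : ℝ, 0 < ε ∧ ε < 2 ∧ (dualDistances X ε).Nonempty ∧ ε < dMinus X ε := by
  refine ⟨Pool.Agent.Helper68.DM.X, inferInstance, inferInstance, inferInstance,
    Pool.Agent.Helper68.DM.finrank_X, Pool.Agent.Helper68.DM.eps,
    Pool.Agent.Helper68.DM.eps_pos, Pool.Agent.Helper68.DM.eps_lt, ?_⟩
  open Pool.Agent.Helper68.DM in
  have hne : (dualDistances X eps).Nonempty := by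
    have n1 : ‖toX (vR 19)‖ = 1 := by rw [norm_toX, N_vR (by norm_num)]
    have n2 : ‖toX (-wz)‖ = 1 := by rw [norm_toX, map_neg_eq_map, N_wz]
    have n3 : ‖toX (vR 19) - toX (-wz)‖ = eps := by
      rw [← map_sub, norm_toX, sub_neg_eq_add, N_wit]
    obtain ⟨g, hg, hgx⟩ := exists_dual_vector ℝ (toX (vR 19)) (by
      intro h; rw [h] at n1; norm_num at n1)
    obtain ⟨g', hg', hgx'⟩ := exists_dual_vector ℝ (toX (-wz)) (by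
      intro h; rw [h] at n2; norm_num at n2)
    exact ⟨‖g - g'‖, toX (vR 19), toX (-wz), n1, n2, n3, g, ⟨hg, by rw [hgx, n1]; simp⟩, g',
      ⟨hg', by rw [hgx', n2]; simp⟩, rfl⟩
  refine ⟨hne, lt_of_lt_of_le Pool.Agent.Helper68.DM.eps_lt_kap (le_csInf hne ?_)⟩
  rintro r ⟨x₁, x₂, h1, h2, h12, p₁, ⟨hp1, hpx1⟩, p₂, ⟨hp2, hpx2⟩, rfl⟩
  exact Pool.Agent.Helper68.DM.bound x₁ x₂ h1 h2 h12 p₁ p₂ hp1 hpx1 hp2 hpx2

end Pool.Agent.Results.MP_8cc159_an.Disproof
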